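import Pool.Agent.W733.CL.Stmts
import Pool.Agent.W733.FT.Top
import Pool.Agent.H721R2.PerPt
import Pool.Agent.H789R2.PE.Ano

/-!
# CL1: periodic points with small drift are dense
-/

set_option autoImplicit false
set_option maxHeartbeats 400000

open scoped Manifold ContDiff Topology
open Set Filter Metric

namespace Pool.Agent.W733.CL

open Pool.Agent.H721R2 Pool.Agent.H789R2.AN

universe u v w

namespace S1

/-- Closing of periodic pseudo-orbits of a hyperbolic system -/
theorem close_g {X : Type u} {F : Type v} [MetricSpace X] [CompactSpace X] [NormedAddCommGroup F]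
    [NormedSpace ℝ F] (S : HypSys X F) (η : ℝ) (hη : 0 < η) :
    ∃ δ > 0, ∀ (z : ℤ → X) (q : ℕ), (∀ n, z (n + q) = z n) →
      (∀ n, dist (S.g (z n)) (z (n + 1)) ≤ δ) →
      ∃ p : X, S.g^[q] p = p ∧ ∀ k : ℕ, dist (S.g^[k] p) (z k) ≤ η := by
  have hK := S.one_le_K
  have hK0 : 0 < S.K := by linarith
  obtain ⟨T, hTg, -⟩ := S.exists_csys (1 / 2) (1 / 2) (by have := S.a_le; linarith)
    (by have := S.b_le; linarith) le_rfl le_rfl ⌈4 * S.Ls⌉₊ ⌈4 * S.Lu⌉₊ (Nat.le_ceil _)
    (Nat.le_ceil _) 1 one_pos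
  have hεs : 0 < T.εs := by
    have := T.δ_le_εs
    have := T.δ_pos
    linarith
  obtain ⟨ε₀, hε₀, hsh⟩ := S.shadowing
  set ε := min ε₀ (min (T.εs / (16 * S.K)) (η / (8 * S.K))) with hε
  have hε0 : 0 < ε := by positivity
  have hε1 : ε ≤ ε₀ := min_le_left _ _
  have hε2 : 16 * S.K * ε ≤ T.εs := by
    have : ε ≤ T.εs / (16 * S.K) := (min_le_right _ _).trans (min_le_left _ _)
    rw [le_div_iff₀ (by positivity)] at this
    linarith
  have hε3 : 8 * S.K * ε ≤ η := by
    have : ε ≤ η / (8 * S.K) := (min_le_right _ _).trans (min_le_right _ _)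
    rw [le_div_iff₀ (by positivity)] at this
    linarith
  refine ⟨ε, hε0, fun z q hzq hz => ?_⟩
  obtain ⟨w, hw1, hw2⟩ := hsh ε hε1 z hz
  have hww : ∀ n, dist (w n) (w (n + q)) ≤ 16 * S.K * ε := by
    intro n
    have h1 := hw2 n
    have h2 := hw2 (n + q)
    rw [hzq] at h2
    have h3 := dist_triangle (w n) (z n) (w (n + q))
    rw [dist_comm (z n)] at h3
    linarith
  have hw' : ∀ n, w (n + 1 + q) = S.g (w (n + q)) := by
    intro n
    have := hw1 (n + q)
    rw [← this]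
    congr 1
    ring
  have e1 : ∀ k : ℕ, S.g^[k] (w 0) = w k := fun k => (S.orbit_nat w hw1 k).symm
  have e2 : ∀ k : ℕ, S.g^[k] (w q) = w (k + q) := fun k => by
    have := S.orbit_nat (fun n => w (n + q)) hw' k
    simp only [zero_add] at this
    exact this.symm
  have e3 : ∀ k : ℕ, S.g.symm^[k] (w 0) = w (-k) := fun k => (S.orbit_neg w hw1 k).symm
  have e4 : ∀ k : ℕ, S.g.symm^[k] (w q) = w (-k + q) := fun k => by
    have := S.orbit_neg (fun n => w (n + q)) hw' k
    simp only [zero_add] at this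
    exact this.symm
  have hS : FRel T.g (16 * S.K * ε) (w 0) (w q) := by
    intro k
    rw [hTg]
    show dist (S.g^[k] (w 0)) (S.g^[k] (w q)) ≤ _
    rw [e1, e2]
    exact hww k
  have hU : FRel T.g.symm (16 * S.K * ε) (w 0) (w q) := by
    intro k
    rw [hTg]
    show dist (S.g.symm^[k] (w 0)) (S.g.symm^[k] (w q)) ≤ _
    rw [e3, e4]
    exact hww (-k)
  have heq := T.expansive hε2 hS hU
  refine ⟨w 0, ?_, fun k => ?_⟩
  · rw [e1 q]
    exact heq.symm
  · rw [e1 k]
    exact (hw2 k).trans hε3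

/-- pseudo-orbits over several steps -/
theorem steps {X : Type u} [MetricSpace X] [CompactSpace X] (f : X ≃ₜ X) (N : ℕ) (ε : ℝ)
    (hε : 0 < ε) : ∃ δ > 0, ∀ s : ℕ → X, (∀ n, dist (f (s n)) (s (n + 1)) ≤ δ) →
      ∀ r ≤ N, ∀ n, dist (f^[r] (s n)) (s (n + r)) < ε := by
  induction N generalizing ε with
  | zero =>
    refine ⟨1, one_pos, fun s _ r hr n => ?_⟩
    obtain rfl : r = 0 := by omega
    simpa using hε
  | succ N ih =>
    have hc : UniformContinuous f := CompactSpace.uniformContinuous_of_continuous f.continuous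
    rw [Metric.uniformContinuous_iff] at hc
    obtain ⟨δ₁, hδ₁, h1⟩ := hc (ε / 2) (half_pos hε)
    obtain ⟨δ₂, hδ₂, h2⟩ := ih (min ε δ₁) (lt_min hε hδ₁)
    refine ⟨min δ₂ (ε / 4), by positivity, fun s hs r hr n => ?_⟩
    rcases Nat.lt_or_ge r (N + 1) with h3 | h3
    · exact (h2 s (fun n => (hs n).trans (min_le_left _ _)) r (by omega) n).trans_le
        (min_le_left _ _)
    · obtain rfl : r = N + 1 := by omega
      rw [Function.iterate_succ_apply']
      have h4 := h1 ((h2 s (fun n => (hs n).trans (min_le_left _ _)) N le_rfl n).trans_le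
        (min_le_right _ _))
      have h5 := (hs (n + N)).trans (min_le_right _ _)
      have h6 := dist_triangle (f (f^[N] (s n))) (f (s (n + N))) (s (n + N + 1))
      have h7 : n + (N + 1) = n + N + 1 := by ring
      rw [h7]
      linarith

/-- Closing of periodic pseudo-orbits of `f`, where `f^[N]` is a hyperbolic system -/
theorem close_f {X : Type u} {F : Type v} [MetricSpace X] [CompactSpace X] [NormedAddCommGroup F]
    [NormedSpace ℝ F] (S : HypSys X F) (f : X ≃ₜ X) (N : ℕ) (hN : 1 ≤ N)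
    (hg : ∀ x, S.g x = f^[N] x) (η : ℝ) (hη : 0 < η) :
    ∃ δ > 0, ∀ (s : ℕ → X) (q : ℕ), 1 ≤ q → (∀ n, s (n + q) = s n) →
      (∀ n, dist (f (s n)) (s (n + 1)) ≤ δ) →
      ∃ p : X, f^[N * q] p = p ∧ ∀ k : ℕ, dist (f^[k] p) (s k) ≤ η := by
  have hgf : (S.g : X → X) = f^[N] := funext hg
  obtain ⟨η₁, hη₁, hu⟩ := FT.unif_iter f N (η / 2) (half_pos hη)
  obtain ⟨δ₁, hδ₁, hcl⟩ := close_g S (η₁ / 2) (half_pos hη₁)
  obtain ⟨δ, hδ, hst⟩ := steps f N (min δ₁ (η / 2)) (by positivity)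
  refine ⟨δ, hδ, fun s q hq1 hsq hs => ?_⟩
  have hq0 : (0 : ℤ) < q := by exact_mod_cast hq1
  -- periodicity
  have hsm : ∀ n k, s (n + q * k) = s n := by
    intro n k
    induction k with
    | zero => rfl
    | succ k ih => rw [Nat.mul_succ, ← add_assoc, hsq, ih]
  have hsN : ∀ n, s (N * (n + q)) = s (N * n) := by
    intro n
    rw [Nat.mul_add, Nat.mul_comm N q, hsm]
  let z : ℤ → X := fun n => s (N * (n % q).toNat)
  have hzk : ∀ k : ℕ, z k = s (N * k) := by
    intro k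
    show s (N * ((k : ℤ) % q).toNat) = s (N * k)
    have h1 : ((k : ℤ) % q).toNat = k % q := by
      rw [← Int.natCast_mod, Int.toNat_natCast]
    rw [h1]
    conv_rhs => rw [← Nat.mod_add_div k q, Nat.mul_add, ← Nat.mul_assoc, Nat.mul_comm N q,
      Nat.mul_assoc, hsm]
  have hz1 : ∀ n : ℤ, z (n + 1) = s (N * (n % q).toNat + N) := by
    intro n
    have h0 : 0 ≤ n % q := Int.emod_nonneg n hq0.ne'
    have h1 : z (n + 1) = z (((n % q).toNat + 1 : ℕ) : ℤ) := by
      show s (N * ((n + 1) % q).toNat) = s (N * ((((n % q).toNat + 1 : ℕ) : ℤ) % q).toNat)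
      congr 3
      push_cast
      rw [Int.toNat_of_nonneg h0]
      simp
    rw [h1, hzk, Nat.mul_succ]
  obtain ⟨p, hp, hpz⟩ := hcl z q (fun n => by
    show s (N * ((n + q) % q).toNat) = s (N * (n % q).toNat)
    rw [Int.add_emod_right]) (fun n => by
    rw [hz1, hg]
    exact ((hst s hs N le_rfl _).trans_le (min_le_left _ _)).le)
  refine ⟨p, ?_, fun k => ?_⟩
  · rw [Function.iterate_mul, ← hgf]
    exact hp
  · have h1 : f^[k] p = f^[k % N] (S.g^[k / N] p) := by
      rw [hgf, ← Function.iterate_mul, ← Function.iterate_add_apply, Nat.mod_add_div]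
    have h2 := hpz (k / N)
    rw [hzk] at h2
    have h3 := hu (k % N) (Nat.mod_lt _ (by omega)).le _ _ (lt_of_le_of_lt h2 (half_lt_self hη₁))
    have h4 := (hst s hs (k % N) (Nat.mod_lt _ (by omega)).le (N * (k / N))).trans_le
      (min_le_right _ _)
    have h5 : N * (k / N) + k % N = k := Nat.div_add_mod k N
    rw [h5] at h4
    rw [h1]
    have h6 := dist_triangle (f^[k % N] (S.g^[k / N] p)) (f^[k % N] (s (N * (k / N)))) (s k)
    linarith

/-- sums of periodic sequences -/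
theorem sum_periodic {V : Type w} [AddCommGroup V] (h : ℕ → V) (L : ℕ)
    (hh : ∀ t, h (t + L) = h t) (k : ℕ) :
    ∑ t ∈ Finset.range (k * L), h t = k • ∑ t ∈ Finset.range L, h t := by
  induction k with
  | zero => simp
  | succ k ih =>
    have h1 : ∀ t, h (k * L + t) = h t := by
      intro t
      clear ih
      induction k with
      | zero => simp
      | succ k ih => rw [Nat.succ_mul, add_right_comm, hh, ih]
    rw [Nat.succ_mul, Finset.sum_range_add, ih, succ_nsmul]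
    simp only [h1]

/-- the closed loop -/
theorem loop {X : Type u} [MetricSpace X] (f : X → X) (a p b x : X) (n₁ P n₂ : ℕ) (r : ℝ)
    (hr : 0 < r) (h1 : 1 ≤ n₁) (hP : 1 ≤ P) (h2 : 1 ≤ n₂) (hax : dist a x < r)
    (hap : dist (f^[n₁] a) p < r) (hbp : dist b p < r) (hbx : dist (f^[n₂] b) x < r)
    (hp : f^[P] p = p) : ∃ s : ℕ → X, (∀ n, s (n + (n₁ + P + n₂)) = s n) ∧
      (∀ n, dist (f (s n)) (s (n + 1)) ≤ 2 * r) ∧ s 0 = a ∧
      ∀ t < P, s (n₁ + t) = f^[t] p := by
  set L := n₁ + P + n₂ with hL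
  let c : ℕ → X := fun t => if t < n₁ then f^[t] a else if t < n₁ + P then f^[t - n₁] p
    else f^[t - (n₁ + P)] b
  have hc1 : ∀ t, t < n₁ → c t = f^[t] a := fun t ht => if_pos ht
  have hc2 : ∀ t, t < P → c (n₁ + t) = f^[t] p := by
    intro t ht
    show (if n₁ + t < n₁ then f^[n₁ + t] a else if n₁ + t < n₁ + P then f^[n₁ + t - n₁] p
      else f^[n₁ + t - (n₁ + P)] b) = _
    rw [if_neg (by omega), if_pos (by omega), Nat.add_sub_cancel_left]
  have hc3 : ∀ t, c (n₁ + P + t) = f^[t] b := by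
    intro t
    show (if n₁ + P + t < n₁ then f^[n₁ + P + t] a else if n₁ + P + t < n₁ + P then
      f^[n₁ + P + t - n₁] p else f^[n₁ + P + t - (n₁ + P)] b) = _
    rw [if_neg (by omega), if_neg (by omega), Nat.add_sub_cancel_left]
  have hjump : ∀ t, t + 1 < L → dist (f (c t)) (c (t + 1)) ≤ 2 * r := by
    intro t ht
    rcases lt_trichotomy (t + 1) n₁ with h | h | h
    · rw [hc1 t (by omega), hc1 (t + 1) h, Function.iterate_succ_apply', dist_self]
      positivity
    · have h3 := hc2 0 (by omega)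
      rw [add_zero, Function.iterate_zero, id_eq] at h3
      rw [hc1 t (by omega), h, h3, ← Function.iterate_succ_apply' f, Nat.succ_eq_add_one, h]
      linarith
    · obtain ⟨t', rfl⟩ : ∃ t', t = n₁ + t' := ⟨t - n₁, by omega⟩
      rcases lt_trichotomy (t' + 1) P with h' | h' | h'
      · rw [hc2 t' (by omega), add_assoc, hc2 (t' + 1) h', Function.iterate_succ_apply', dist_self]
        positivity
      · have h3 := hc3 0
        rw [add_zero, Function.iterate_zero, id_eq] at h3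
        rw [hc2 t' (by omega), add_assoc, h', h3, ← Function.iterate_succ_apply' f,
          Nat.succ_eq_add_one, h', hp, dist_comm]
        linarith
      · obtain ⟨t'', rfl⟩ : ∃ t'', t' = P + t'' := ⟨t' - P, by omega⟩
        rw [← add_assoc, hc3, add_assoc (n₁ + P), hc3, Function.iterate_succ_apply', dist_self]
        positivity
  have hlast : dist (f (c (L - 1))) (c 0) ≤ 2 * r := by
    have h3 : L - 1 = n₁ + P + (n₂ - 1) := by omega
    have h4 : (n₂ - 1).succ = n₂ := by omega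
    rw [h3, hc3, hc1 0 (by omega), ← Function.iterate_succ_apply' f, h4, Function.iterate_zero,
      id_eq]
    have h5 := dist_triangle (f^[n₂] b) x a
    rw [dist_comm x a] at h5
    linarith
  refine ⟨fun t => c (t % L), fun n => ?_, fun n => ?_, ?_, fun t ht => ?_⟩
  · simp only [Nat.add_mod_right]
  · simp only []
    have h3 : n % L < L := Nat.mod_lt _ (by omega)
    rcases Nat.lt_or_ge (n % L + 1) L with h4 | h4
    · have h5 : (n + 1) % L = n % L + 1 := by
        rw [Nat.add_mod, Nat.mod_eq_of_lt (show 1 < L by omega), Nat.mod_eq_of_lt h4]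
      rw [h5]
      exact hjump _ h4
    · have h5 : n % L = L - 1 := by omega
      have h6 : (n + 1) % L = 0 := by
        have h7 : n + 1 = L * (n / L) + L := by
          have := Nat.div_add_mod n L
          omega
        rw [h7]
        simp
      rw [h5, h6]
      exact hlast
  · simp only [Nat.zero_mod]
    rw [hc1 0 (by omega)]
    rfl
  · simp only []
    rw [Nat.mod_eq_of_lt (by omega), hc2 t ht]

theorem main_abs {X : Type u} [MetricSpace X] [CompactSpace X] (f : X ≃ₜ X) (N : ℕ) (hN : 1 ≤ N)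
    (hcl : ∀ η : ℝ, 0 < η → ∃ δ > 0, ∀ (s : ℕ → X) (q : ℕ), 1 ≤ q → (∀ n, s (n + q) = s n) →
      (∀ n, dist (f (s n)) (s (n + 1)) ≤ δ) →
      ∃ p : X, f^[N * q] p = p ∧ ∀ k : ℕ, dist (f^[k] p) (s k) ≤ η)
    (htr : TopTransitive f) {V : Type w} [NormedAddCommGroup V] [NormedSpace ℝ V] (τ : X → V)
    (hτ : Continuous τ)
    (hper : ∀ ε : ℝ, 0 < ε → ∃ (n : ℕ) (p : X), 1 ≤ n ∧ f^[n] p = p ∧ ‖vsum f τ n p‖ ≤ ε * n)
    (x : X) (U : Set X) (hU : U ∈ 𝓝 x) (ε : ℝ) (hε : 0 < ε) :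
    ∃ x' ∈ U, ∃ n : ℕ, 1 ≤ n ∧ f^[n] x' = x' ∧ ‖vsum f τ n x'‖ ≤ ε * n := by
  obtain ⟨C, hC⟩ : ∃ C : ℝ, ∀ y, ‖τ y‖ ≤ C := by
    obtain ⟨C, hC⟩ := (isCompact_range hτ).isBounded.exists_norm_le
    exact ⟨C, fun y => hC _ ⟨y, rfl⟩⟩
  have hC0 : 0 ≤ C := (norm_nonneg _).trans (hC x)
  have huc : UniformContinuous τ := CompactSpace.uniformContinuous_of_continuous hτ
  rw [Metric.uniformContinuous_iff] at huc
  obtain ⟨η₁, hη₁, hu⟩ := huc (ε / 4) (by positivity)
  obtain ⟨ρ, hρ, hρU⟩ := Metric.mem_nhds_iff.mp hU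
  obtain ⟨δ, hδ, hcl'⟩ := hcl (min (η₁ / 2) (ρ / 2)) (by positivity)
  obtain ⟨n₀, p, hn₀, hp, hpτ⟩ := hper (ε / 4) (by positivity)
  have htr' : ∀ y y' : X, ∀ r > 0, ∃ a, dist a y < r ∧ ∃ n, 1 ≤ n ∧ dist (f^[n] a) y' < r := by
    intro y y' r hr
    obtain ⟨n, _, ⟨_, ⟨a, ha, rfl⟩, rfl⟩, h2⟩ := htr (f '' ball y r) (ball y' r)
      (f.isOpenMap _ isOpen_ball) ((nonempty_ball.mpr hr).image f) isOpen_ball
      (nonempty_ball.mpr hr)
    exact ⟨a, ha, n + 1, by omega, h2⟩
  have hr0 : 0 < min (δ / 2) (ρ / 2) := by positivity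
  obtain ⟨a, hax, n₁, hn₁, hap⟩ := htr' x p _ hr0
  obtain ⟨b, hbp, n₂, hn₂, hbx⟩ := htr' p x _ hr0
  obtain ⟨K, hK⟩ := exists_nat_ge (((n₁ + n₂ : ℕ) : ℝ) * C / (ε / 4))
  rw [div_le_iff₀ (by positivity)] at hK
  have hpit : ∀ t, f^[t + n₀] p = f^[t] p := fun t => by
    rw [Function.iterate_add_apply, hp]
  have hpK : f^[(K + 1) * n₀] p = p := by
    have : ∀ k : ℕ, f^[k * n₀] p = p := by
      intro k
      induction k with
      | zero => simp
      | succ k ih => rw [Nat.succ_mul, hpit, ih]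
    exact this _
  have hP1 : 1 ≤ (K + 1) * n₀ := Nat.mul_pos (Nat.succ_pos K) hn₀
  obtain ⟨s, hs1, hs2, hs3, hs4⟩ := loop f a p b x n₁ ((K + 1) * n₀) n₂ _ hr0 hn₁ hP1 hn₂ hax hap
    hbp hbx hpK
  set L := n₁ + (K + 1) * n₀ + n₂ with hL
  obtain ⟨x', hx', hxs⟩ := hcl' s L (by omega) hs1 (fun n => (hs2 n).trans (by
    have := min_le_left (δ / 2) (ρ / 2)
    linarith))
  refine ⟨x', hρU ?_, N * L, Nat.mul_pos hN (by omega), hx', ?_⟩
  · rw [mem_ball]
    have h1 := (hxs 0).trans (min_le_right _ _)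
    rw [hs3, Function.iterate_zero, id_eq] at h1
    have h2 := hax.trans_le (min_le_right _ _)
    have h3 := dist_triangle x' a x
    linarith
  · -- the sum along the pseudo-orbit
    have h1 : ∑ t ∈ Finset.range (N * L), τ (s t) = N • ∑ t ∈ Finset.range L, τ (s t) :=
      sum_periodic (fun t => τ (s t)) L (fun t => by rw [hs1]) N
    have h2 : ‖∑ t ∈ Finset.range L, τ (s t)‖ ≤ (n₁ + n₂ : ℕ) * C + (K + 1) * (ε / 4 * n₀) := by
      rw [hL, Finset.sum_range_add, Finset.sum_range_add]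
      have e1 : ‖∑ t ∈ Finset.range n₁, τ (s t)‖ ≤ n₁ * C := by
        have := norm_sum_le_of_le (Finset.range n₁) (f := fun t => τ (s t)) (n := fun _ => C)
          (fun t _ => hC _)
        simpa using this
      have e2 : ‖∑ t ∈ Finset.range n₂, τ (s (n₁ + (K + 1) * n₀ + t))‖ ≤ n₂ * C := by
        have := norm_sum_le_of_le (Finset.range n₂)
          (f := fun t => τ (s (n₁ + (K + 1) * n₀ + t))) (n := fun _ => C) (fun t _ => hC _)
        simpa using this
      have e3 : ∑ t ∈ Finset.range ((K + 1) * n₀), τ (s (n₁ + t)) = (K + 1) • vsum f τ n₀ p := by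
        rw [vsum, ← sum_periodic (fun t => τ (f^[t] p)) n₀ (fun t => by rw [hpit]) (K + 1)]
        refine Finset.sum_congr rfl fun t ht => ?_
        rw [hs4 t (Finset.mem_range.mp ht)]
      have e4 : ‖∑ t ∈ Finset.range ((K + 1) * n₀), τ (s (n₁ + t))‖ ≤
          (K + 1) * (ε / 4 * n₀) := by
        rw [e3]
        refine (norm_nsmul_le).trans ?_
        push_cast
        exact mul_le_mul_of_nonneg_left hpτ (by positivity)
      refine (norm_add₃_le).trans ?_
      push_cast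
      linarith
    have h3 : ‖vsum f τ (N * L) x' - ∑ t ∈ Finset.range (N * L), τ (s t)‖ ≤
        (N * L : ℕ) * (ε / 4) := by
      rw [vsum, ← Finset.sum_sub_distrib]
      have := norm_sum_le_of_le (Finset.range (N * L))
        (f := fun t => τ (f^[t] x') - τ (s t)) (n := fun _ => ε / 4) (fun t _ => by
          have h4 := (hxs t).trans (min_le_left _ _)
          have h5 := hu (lt_of_le_of_lt h4 (half_lt_self hη₁))
          rw [dist_eq_norm] at h5
          exact h5.le)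
      simpa using this
    have h4 : ‖∑ t ∈ Finset.range (N * L), τ (s t)‖ ≤
        N * ((n₁ + n₂ : ℕ) * C + (K + 1) * (ε / 4 * n₀)) := by
      rw [h1]
      exact (norm_nsmul_le).trans (mul_le_mul_of_nonneg_left h2 (by positivity))
    have h5 : ‖vsum f τ (N * L) x'‖ ≤ ‖vsum f τ (N * L) x' -
        ∑ t ∈ Finset.range (N * L), τ (s t)‖ + ‖∑ t ∈ Finset.range (N * L), τ (s t)‖ :=
      norm_le_norm_sub_add _ _
    have hn₀' : (1 : ℝ) ≤ n₀ := by exact_mod_cast hn₀
    have h6 : ((n₁ + n₂ : ℕ) : ℝ) * C ≤ (K + 1) * (ε / 4 * n₀) := by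
      refine hK.trans ?_
      have : (K : ℝ) * (ε / 4) ≤ (K + 1) * (ε / 4) := by
        apply mul_le_mul_of_nonneg_right _ (by positivity)
        linarith
      refine this.trans (mul_le_mul_of_nonneg_left ?_ (by positivity))
      exact le_mul_of_one_le_right (by positivity) hn₀'
    have h7 : ((K : ℝ) + 1) * n₀ ≤ L := by
      have : (K + 1) * n₀ ≤ L := by omega
      exact_mod_cast this
    have h8 : ((n₁ + n₂ : ℕ) * C + (K + 1) * (ε / 4 * n₀)) ≤ ε / 2 * L := by
      have : ((K : ℝ) + 1) * (ε / 4 * n₀) = ε / 4 * ((K + 1) * n₀) := by ring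
      have h9 : ε / 4 * (((K : ℝ) + 1) * n₀) ≤ ε / 4 * L :=
        mul_le_mul_of_nonneg_left h7 (by positivity)
      linarith
    have h10 : (N : ℝ) * ((n₁ + n₂ : ℕ) * C + (K + 1) * (ε / 4 * n₀)) ≤ N * (ε / 2 * L) :=
      mul_le_mul_of_nonneg_left h8 (by positivity)
    have h11 : (0 : ℝ) ≤ (N * L : ℕ) := by positivity
    push_cast at h3 h11 ⊢
    nlinarith

end S1

/-- CL1 -/
theorem s1 : PropS1.{u, v} := by
  intro E _ _ _ M _ _ _ _ _ _ f Es Eu hA htr k τ hτ hper x U hU ε hε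
  obtain ⟨m, e, he, hemb, hinj⟩ := exists_embedding_euclidean_of_compact (I := 𝓘(ℝ, E)) (M := M)
  let _ : MetricSpace M := hemb.isEmbedding.comapMetricSpace e
  have hiso : ∀ x y : M, dist x y = ‖e x - e y‖ := fun x y => dist_eq_norm (e x) (e y)
  have he1 : ContMDiff 𝓘(ℝ, E) (𝓡 m) 1 e := he.of_le (by simp)
  obtain ⟨N, S, hg, -, -, -⟩ := exists_sys hiso he1 hinj f Es Eu hA
  have hgi : ∀ x, S.g x = f.toHomeomorph^[N] x := fun x => by
    rw [hg]; rfl
  rcases Nat.eq_zero_or_pos N with hN | hN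
  · subst hN
    obtain ⟨c, hc⟩ := exists_LP S
    have hsub := FT.subsingleton_of_id hc hgi
    obtain ⟨n, p, h1, h2, h3⟩ := hper ε hε
    have hpx : p = x := Subsingleton.elim _ _
    subst hpx
    exact ⟨p, mem_of_mem_nhds hU, n, h1, h2, h3⟩
  · exact S1.main_abs f.toHomeomorph N hN (S1.close_f S f.toHomeomorph N hN hgi) htr τ hτ hper x U
      hU ε hε

end Pool.Agent.W733.CL
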