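import Pool.Agent.W733.CL.Stmts

/-!
# Project CL, part CL2: a smooth family of diffeomorphisms moving points
-/

set_option autoImplicit false

open scoped Manifold ContDiff Topology NNReal
open Set Filter Metric

namespace Pool.Agent.W733.CL

universe u v w

section perturb

variable {F : Type*} [NormedAddCommGroup F] [NormedSpace ℝ F] [FiniteDimensional ℝ F]

theorem s2_perturb (K : F → F) (hK : ContDiff ℝ ∞ K) (c : ℝ≥0) (hc : c < 1)
    (hL : LipschitzWith c K) :
    ∃ G : F ≃ₜ F, (∀ z, G z = z - K z) ∧ ContDiff ℝ ∞ G.symm := by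
  haveI : CompleteSpace F := FiniteDimensional.complete ℝ F
  have hA : ApproximatesLinearOn (fun z => z - K z)
      ((ContinuousLinearEquiv.refl ℝ F : F ≃L[ℝ] F) : F →L[ℝ] F) univ c := by
    intro x _ y _
    have e : x - K x - (y - K y) - ((ContinuousLinearEquiv.refl ℝ F : F ≃L[ℝ] F) : F →L[ℝ] F) (x - y)
        = -(K x - K y) := by
      simp only [ContinuousLinearEquiv.coe_refl, ContinuousLinearMap.id_apply]
      abel
    simp only [e]
    rw [norm_neg, ← dist_eq_norm, ← dist_eq_norm]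
    exact hL.dist_le_mul x y
  have hc' : Subsingleton F ∨ c < ‖((ContinuousLinearEquiv.refl ℝ F).symm : F →L[ℝ] F)‖₊⁻¹ := by
    rcases subsingleton_or_nontrivial F with h | h
    · exact Or.inl h
    · right
      have : ‖((ContinuousLinearEquiv.refl ℝ F).symm : F →L[ℝ] F)‖₊ = 1 := by
        simp only [ContinuousLinearEquiv.refl_symm, ContinuousLinearEquiv.coe_refl]
        exact nnnorm_one
      rw [this, inv_one]
      exact hc
  refine ⟨hA.toHomeomorph _ hc', fun z => rfl, ?_⟩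
  have hKd : Differentiable ℝ K := hK.differentiable (by simp)
  have hinj : ∀ z : F, Function.Injective (ContinuousLinearMap.id ℝ F - fderiv ℝ K z) := by
    intro z
    rw [injective_iff_map_eq_zero]
    intro w hw
    rw [sub_apply, ContinuousLinearMap.id_apply, sub_eq_zero] at hw
    have h1 : ‖fderiv ℝ K z w‖ ≤ c * ‖w‖ := by
      refine ((fderiv ℝ K z).le_opNorm w).trans ?_
      exact mul_le_mul_of_nonneg_right (norm_fderiv_le_of_lipschitz ℝ hL) (norm_nonneg _)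
    rw [← hw] at h1
    by_contra hne
    have h2 : 0 < ‖w‖ := norm_pos_iff.2 hne
    have h3 : (c : ℝ) < 1 := by exact_mod_cast hc
    nlinarith
  have hex : ∀ z : F, ∃ e : F ≃L[ℝ] F, (e : F →L[ℝ] F) = ContinuousLinearMap.id ℝ F - fderiv ℝ K z := by
    intro z
    refine ⟨(LinearEquiv.ofInjectiveEndo ((ContinuousLinearMap.id ℝ F - fderiv ℝ K z) : F →ₗ[ℝ] F)
      (hinj z)).toContinuousLinearEquiv, ?_⟩
    ext w
    rfl
  choose e he using hex
  refine Homeomorph.contDiff_symm _ (f₀' := e) ?_ ?_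
  · intro a
    rw [he]
    exact (hasFDerivAt_id a).sub (hKd a).hasFDerivAt
  · exact contDiff_id.sub hK

end perturb

section family

variable {E : Type*} [NormedAddCommGroup E] [NormedSpace ℝ E] [FiniteDimensional ℝ E]

/-- the family of diffeomorphisms of the model space -/
theorem s2_family (u0 : E) (R : ℝ) (hR : 0 < R) :
    ∃ (t t' : E → E → E) (s : ℝ), 0 < s ∧ ContDiff ℝ ∞ (fun q : E × E => t q.1 q.2) ∧
      ContDiff ℝ ∞ (fun q : E × E => t' q.1 q.2) ∧
      (∀ v y, t v (t' v y) = y) ∧ (∀ v y, t' v (t v y) = y) ∧ (∀ y, t 0 y = y) ∧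
      (∀ v y, y ∉ ball u0 (2 * R) → t v y = y) ∧
      (∀ v y, ‖v‖ < 1 → y ∈ ball u0 R → t v y = y - s • v) := by
  let ρ : ContDiffBump u0 := ⟨R, 2 * R, hR, by linarith⟩
  let β : ContDiffBump (0 : E) := ⟨1, 2, one_pos, one_lt_two⟩
  let K0 : E × E → E × E := fun z => (0, ρ z.2 • β z.1 • z.1)
  have hK0 : ContDiff ℝ ∞ K0 := by
    refine contDiff_const.prodMk ?_
    exact (ρ.contDiff.comp contDiff_snd).smul ((β.contDiff.comp contDiff_fst).smul contDiff_fst)
  have hsupp : HasCompactSupport K0 := by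
    refine HasCompactSupport.intro (K := closedBall (0 : E) 2 ×ˢ closedBall u0 (2 * R))
      ((isCompact_closedBall _ _).prod (isCompact_closedBall _ _)) ?_
    intro z hz
    have hz' : z.1 ∉ closedBall (0 : E) 2 ∨ z.2 ∉ closedBall u0 (2 * R) := by
      by_contra hcon
      push Not at hcon
      exact hz ⟨hcon.1, hcon.2⟩
    rcases hz' with h | h
    · have : β z.1 = 0 := β.zero_of_le_dist (by
        rw [mem_closedBall, not_le] at h
        exact h.le)
      simp only [K0, this, zero_smul, smul_zero]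
      rfl
    · have : ρ z.2 = 0 := ρ.zero_of_le_dist (by
        rw [mem_closedBall, not_le] at h
        exact h.le)
      simp only [K0, this, zero_smul]
      rfl
  obtain ⟨L, hL⟩ := ContDiff.lipschitzWith_of_hasCompactSupport (𝕂 := ℝ) hsupp hK0 (by simp)
  set s : ℝ≥0 := (2 * (L + 1))⁻¹ with hs
  have hs0 : 0 < s := by positivity
  let K : E × E → E × E := fun z => (s : ℝ) • K0 z
  have hK : ContDiff ℝ ∞ K := hK0.const_smul (s : ℝ)
  have hKL : LipschitzWith (s * L) K := by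
    refine LipschitzWith.of_dist_le_mul fun x y => ?_
    have := hL.dist_le_mul x y
    simp only [K]
    rw [dist_eq_norm, ← smul_sub, norm_smul, Real.norm_eq_abs, NNReal.abs_eq, ← dist_eq_norm,
      NNReal.coe_mul, mul_assoc]
    exact mul_le_mul_of_nonneg_left this (NNReal.coe_nonneg s)
  have hc : s * L < 1 := by
    rw [hs, inv_mul_lt_iff₀ (by positivity)]
    have : L < L + 1 := lt_add_one L
    calc L < L + 1 := this
      _ ≤ 2 * (L + 1) * 1 := by
        rw [mul_one, two_mul]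
        exact le_add_of_nonneg_left zero_le
  obtain ⟨G, hG, hGs⟩ := s2_perturb K hK (s * L) hc hKL
  have hG1 : ∀ z, (G z).1 = z.1 := by
    intro z
    rw [hG]
    simp [K, K0]
  have hG1' : ∀ z, (G.symm z).1 = z.1 := by
    intro z
    have := hG1 (G.symm z)
    rw [G.apply_symm_apply] at this
    exact this.symm
  refine ⟨fun v y => (G (v, y)).2, fun v y => (G.symm (v, y)).2, s, by exact_mod_cast hs0,
    ?_, ?_, ?_, ?_, ?_, ?_, ?_⟩
  · have : ContDiff ℝ ∞ G := by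
      have e : (G : E × E → E × E) = fun z => z - K z := funext hG
      rw [e]
      exact contDiff_id.sub hK
    exact contDiff_snd.comp this
  · exact contDiff_snd.comp hGs
  · intro v y
    have e : (v, (G.symm (v, y)).2) = G.symm (v, y) := by
      ext
      · exact (hG1' (v, y)).symm
      · rfl
    simp only [e, G.apply_symm_apply]
  · intro v y
    have e : (v, (G (v, y)).2) = G (v, y) := by
      ext
      · exact (hG1 (v, y)).symm
      · rfl
    simp only [e, G.symm_apply_apply]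
  · intro y
    simp only [hG, K, K0]
    simp
  · intro v y hy
    have : ρ y = 0 := ρ.zero_of_le_dist (by
      rw [mem_ball, not_lt] at hy
      exact hy)
    simp only [hG, K, K0, this]
    simp
  · intro v y hv hy
    have h1 : ρ y = 1 := ρ.one_of_mem_closedBall (ball_subset_closedBall hy)
    have h2 : β v = 1 := β.one_of_mem_closedBall (by
      rw [mem_closedBall, dist_zero_right]
      exact hv.le)
    simp only [hG, K, K0, h1, h2]
    simp

end family

section manifold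

variable {E : Type*} [NormedAddCommGroup E] [NormedSpace ℝ E] [FiniteDimensional ℝ E]
  {M : Type*} [TopologicalSpace M] [T2Space M] [ChartedSpace E M] [IsManifold 𝓘(ℝ, E) ∞ M]

open Classical in
/-- transfer of a family to the manifold -/
noncomputable def s2_tr (x : M) (R : ℝ) (t : E → E → E) (v : E) (y : M) : M :=
  if y ∈ (extChartAt 𝓘(ℝ, E) x).source ∧
    extChartAt 𝓘(ℝ, E) x y ∈ ball (extChartAt 𝓘(ℝ, E) x x) (3 * R) then
    (extChartAt 𝓘(ℝ, E) x).symm (t v (extChartAt 𝓘(ℝ, E) x y)) else y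

omit [NormedSpace ℝ E] [FiniteDimensional ℝ E] in
theorem s2_maps (u0 : E) (R : ℝ) (hR : 0 < R) (t t' : E → E → E) (v : E)
    (h1 : ∀ y, t' v (t v y) = y) (h3 : ∀ y, y ∉ ball u0 (2 * R) → t v y = y) (y : E)
    (hy : y ∈ ball u0 (3 * R)) : t v y ∈ ball u0 (3 * R) := by
  by_cases h : y ∈ ball u0 (2 * R)
  · by_contra hcon
    have h4 : t v y ∉ ball u0 (2 * R) := fun h5 => hcon (ball_subset_ball (by linarith) h5)
    have h5 := h3 _ h4
    have h6 := h1 (t v y)
    rw [h5, h1 y] at h6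
    rw [← h6] at hcon
    exact hcon hy
  · rw [h3 y h]; exact hy

omit [FiniteDimensional ℝ E] [T2Space M] [IsManifold 𝓘(ℝ, E) ∞ M] in
theorem s2_inv (x : M) (R : ℝ) (hR : 0 < R)
    (hsub : closedBall (extChartAt 𝓘(ℝ, E) x x) (3 * R) ⊆ (extChartAt 𝓘(ℝ, E) x).target)
    (t t' : E → E → E) (v : E)
    (h1 : ∀ y, t' v (t v y) = y)
    (h3 : ∀ y, y ∉ ball (extChartAt 𝓘(ℝ, E) x x) (2 * R) → t v y = y) (y : M) :
    s2_tr x R t' v (s2_tr x R t v y) = y := by
  by_cases h : y ∈ (extChartAt 𝓘(ℝ, E) x).source ∧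
    extChartAt 𝓘(ℝ, E) x y ∈ ball (extChartAt 𝓘(ℝ, E) x x) (3 * R)
  · have e1 : s2_tr x R t v y = (extChartAt 𝓘(ℝ, E) x).symm (t v (extChartAt 𝓘(ℝ, E) x y)) := by
      unfold s2_tr
      rw [if_pos h]
    have h4 := s2_maps _ R hR t t' v h1 h3 _ h.2
    have h5 : t v (extChartAt 𝓘(ℝ, E) x y) ∈ (extChartAt 𝓘(ℝ, E) x).target :=
      hsub (ball_subset_closedBall h4)
    have h6 := (extChartAt 𝓘(ℝ, E) x).right_inv h5
    have h7 := (extChartAt 𝓘(ℝ, E) x).map_target h5
    rw [e1]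
    unfold s2_tr
    rw [if_pos ⟨h7, by rw [h6]; exact h4⟩, h6, h1, (extChartAt 𝓘(ℝ, E) x).left_inv h.1]
  · have e1 : s2_tr x R t v y = y := by
      unfold s2_tr
      rw [if_neg h]
    rw [e1]
    unfold s2_tr
    rw [if_neg h]

theorem s2_smooth (x : M) (R : ℝ) (hR : 0 < R)
    (hsub : closedBall (extChartAt 𝓘(ℝ, E) x x) (3 * R) ⊆ (extChartAt 𝓘(ℝ, E) x).target)
    (t t' : E → E → E) (h1 : ∀ v y, t' v (t v y) = y)
    (h3 : ∀ v y, y ∉ ball (extChartAt 𝓘(ℝ, E) x x) (2 * R) → t v y = y)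
    (ht : ContDiff ℝ ∞ (fun q : E × E => t q.1 q.2)) :
    ContMDiff (𝓘(ℝ, E).prod 𝓘(ℝ, E)) 𝓘(ℝ, E) ∞ (fun q : E × M => s2_tr x R t q.1 q.2) := by
  intro q0
  by_cases h : q0.2 ∈ (extChartAt 𝓘(ℝ, E) x).source ∧
    extChartAt 𝓘(ℝ, E) x q0.2 ∈ ball (extChartAt 𝓘(ℝ, E) x x) (3 * R)
  · -- formula
    have hopen : ∀ᶠ y in 𝓝 q0.2, y ∈ (extChartAt 𝓘(ℝ, E) x).source ∧
        extChartAt 𝓘(ℝ, E) x y ∈ ball (extChartAt 𝓘(ℝ, E) x x) (3 * R) := by
      have a1 := (isOpen_extChartAt_source (I := 𝓘(ℝ, E)) x).mem_nhds h.1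
      have a2 := (continuousAt_extChartAt' (I := 𝓘(ℝ, E)) h.1).preimage_mem_nhds
        (isOpen_ball.mem_nhds h.2)
      filter_upwards [a1, a2] with y b1 b2
      exact ⟨b1, b2⟩
    have hev : (fun q : E × M => s2_tr x R t q.1 q.2) =ᶠ[𝓝 q0]
        fun q => (extChartAt 𝓘(ℝ, E) x).symm (t q.1 (extChartAt 𝓘(ℝ, E) x q.2)) := by
      filter_upwards [continuousAt_snd.eventually hopen] with q hq
      unfold s2_tr
      rw [if_pos hq]
    refine ContMDiffAt.congr_of_eventuallyEq ?_ hev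
    have c1 : ContMDiffAt (𝓘(ℝ, E).prod 𝓘(ℝ, E)) 𝓘(ℝ, E × E) ∞
        (fun q : E × M => (q.1, extChartAt 𝓘(ℝ, E) x q.2)) q0 := by
      refine contMDiffAt_fst.prodMk_space ?_
      have c0 : ContMDiffAt 𝓘(ℝ, E) 𝓘(ℝ, E) ∞ (extChartAt 𝓘(ℝ, E) x) q0.2 :=
        contMDiffAt_extChartAt' (by rw [← extChartAt_source 𝓘(ℝ, E) x]; exact h.1)
      exact c0.comp q0 contMDiffAt_snd
    have c2 : ContMDiffAt (𝓘(ℝ, E).prod 𝓘(ℝ, E)) 𝓘(ℝ, E) ∞
        (fun q : E × M => t q.1 (extChartAt 𝓘(ℝ, E) x q.2)) q0 :=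
      ContMDiffAt.comp (g := fun q : E × E => t q.1 q.2) q0 ht.contMDiff.contMDiffAt c1
    have h4 := s2_maps _ R hR t t' q0.1 (h1 q0.1) (h3 q0.1) _ h.2
    have h5 : (extChartAt 𝓘(ℝ, E) x).target ∈ 𝓝 (t q0.1 (extChartAt 𝓘(ℝ, E) x q0.2)) :=
      (isOpen_extChartAt_target x).mem_nhds (hsub (ball_subset_closedBall h4))
    have c3 : ContMDiffAt 𝓘(ℝ, E) 𝓘(ℝ, E) ∞ (extChartAt 𝓘(ℝ, E) x).symm
        (t q0.1 (extChartAt 𝓘(ℝ, E) x q0.2)) :=
      (contMDiffOn_extChartAt_symm x).contMDiffAt h5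
    exact ContMDiffAt.comp (g := (extChartAt 𝓘(ℝ, E) x).symm) q0 c3 c2
  · -- identity
    set C : Set M := (extChartAt 𝓘(ℝ, E) x).symm '' closedBall (extChartAt 𝓘(ℝ, E) x x) (2 * R)
      with hC
    have hsub2 : closedBall (extChartAt 𝓘(ℝ, E) x x) (2 * R) ⊆ (extChartAt 𝓘(ℝ, E) x).target :=
      (closedBall_subset_closedBall (by linarith)).trans hsub
    have hCc : IsClosed C := by
      refine IsCompact.isClosed ?_
      exact (isCompact_closedBall _ _).image_of_continuousOn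
        ((continuousOn_extChartAt_symm x).mono hsub2)
    have hq0 : q0.2 ∉ C := by
      rintro ⟨z, hz, hzq⟩
      apply h
      rw [← hzq]
      refine ⟨(extChartAt 𝓘(ℝ, E) x).map_target (hsub2 hz), ?_⟩
      rw [(extChartAt 𝓘(ℝ, E) x).right_inv (hsub2 hz)]
      exact closedBall_subset_ball (by linarith) hz
    have hev : (fun q : E × M => s2_tr x R t q.1 q.2) =ᶠ[𝓝 q0] fun q => q.2 := by
      filter_upwards [continuousAt_snd.eventually (hCc.isOpen_compl.mem_nhds hq0)] with q hq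
      unfold s2_tr
      split_ifs with h4
      · rw [h3, (extChartAt 𝓘(ℝ, E) x).left_inv h4.1]
        intro h5
        exact hq ⟨_, ball_subset_closedBall h5, (extChartAt 𝓘(ℝ, E) x).left_inv h4.1⟩
      · rfl
    exact ContMDiffAt.congr_of_eventuallyEq contMDiffAt_snd hev

end manifold

theorem s2 : PropS2.{u, v} := by
  intro E _ _ _ M _ _ _ _ x
  set u0 := extChartAt 𝓘(ℝ, E) x x with hu0
  obtain ⟨R, hR, hsub⟩ : ∃ R : ℝ, 0 < R ∧
      closedBall u0 (3 * R) ⊆ (extChartAt 𝓘(ℝ, E) x).target := by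
    obtain ⟨r, hr, hsub⟩ := Metric.nhds_basis_closedBall.mem_iff.1
      (extChartAt_target_mem_nhds (I := 𝓘(ℝ, E)) x)
    exact ⟨r / 3, by positivity, by rwa [mul_div_cancel₀ r three_ne_zero]⟩
  obtain ⟨t, t', s, hs, ht, ht', h1, h1', h0, h3, h4⟩ := s2_family u0 R hR
  have h3' : ∀ v y, y ∉ ball u0 (2 * R) → t' v y = y := by
    intro v y hy
    have := h1' v y
    rwa [h3 v y hy] at this
  have S1 := s2_smooth x R hR hsub t t' h1' h3 ht
  have S2 := s2_smooth x R hR hsub t' t h1 h3' ht'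
  have hv : ∀ v : E, ContMDiff 𝓘(ℝ, E) (𝓘(ℝ, E).prod 𝓘(ℝ, E)) ∞ (fun y : M => (v, y)) :=
    fun v => contMDiff_const.prodMk contMDiff_id
  refine ⟨1, fun v => ⟨⟨s2_tr x R t v, s2_tr x R t' v, s2_inv x R hR hsub t t' v (h1' v) (h3 v),
    s2_inv x R hR hsub t' t v (h1 v) (h3' v)⟩, S1.comp (hv v), S2.comp (hv v)⟩, one_pos, ?_,
    S1.contMDiffOn, S2.contMDiffOn, ?_⟩
  · intro y
    show s2_tr x R t 0 y = y
    unfold s2_tr
    split_ifs with h
    · rw [h0, (extChartAt 𝓘(ℝ, E) x).left_inv h.1]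
    · rfl
  · intro η hη
    have hc : Tendsto (fun x' => s⁻¹ • (extChartAt 𝓘(ℝ, E) x x' - u0)) (𝓝 x) (𝓝 0) := by
      have := ((continuousAt_extChartAt (I := 𝓘(ℝ, E)) x).sub
        (continuousAt_const (y := u0))).const_smul s⁻¹
      have h5 : s⁻¹ • (extChartAt 𝓘(ℝ, E) x x - u0) = 0 := by
        rw [← hu0, sub_self, smul_zero]
      rw [← h5]
      exact this
    have hb : ∀ᶠ x' in 𝓝 x, extChartAt 𝓘(ℝ, E) x x' ∈ ball u0 R :=
      (continuousAt_extChartAt (I := 𝓘(ℝ, E)) x).eventually (ball_mem_nhds _ hR)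
    filter_upwards [extChartAt_source_mem_nhds (I := 𝓘(ℝ, E)) x, hb,
      hc.eventually (ball_mem_nhds (0 : E) (lt_min hη one_pos))] with x' b1 b2 b3
    rw [dist_zero_right] at b3
    refine ⟨s⁻¹ • (extChartAt 𝓘(ℝ, E) x x' - u0), lt_of_lt_of_le b3 (min_le_left _ _), ?_⟩
    show s2_tr x R t _ x' = x
    unfold s2_tr
    rw [if_pos ⟨b1, ball_subset_ball (by linarith) b2⟩,
      h4 _ _ (lt_of_lt_of_le b3 (min_le_right _ _)) b2, smul_smul, mul_inv_cancel₀ hs.ne', one_smul,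
      sub_sub_cancel, hu0]
    exact extChartAt_to_inv x

end Pool.Agent.W733.CL
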