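import Pool.Agent.W733.CL.Stmts

/-!
# CL3: jointly `C^r` families of diffeomorphisms are continuous for the `C^r` topology
-/

set_option autoImplicit false

open scoped Manifold ContDiff Topology
open Set Filter Metric

namespace Pool.Agent.W733.CL

open Pool.Agent.H721R2 Pool.Agent.H789R2.AN

universe u v w

namespace S3

section lin

variable {P E F : Type*} [NormedAddCommGroup P] [NormedSpace ℝ P] [NormedAddCommGroup E]
  [NormedSpace ℝ E] [NormedAddCommGroup F] [NormedSpace ℝ F]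

theorem slice_deriv (Γ : P × E → F) (W : Set (P × E)) (hW : IsOpen W) (n : WithTop ℕ∞)
    (hΓ : ContDiffOn ℝ n Γ W) (m : ℕ) (hm : (m : WithTop ℕ∞) ≤ n) (z : P × E) (hz : z ∈ W) :
    iteratedFDeriv ℝ m (fun u => Γ (z.1, u)) z.2 =
      (iteratedFDeriv ℝ m Γ z).compContinuousLinearMap (fun _ => ContinuousLinearMap.inr ℝ P E) := by
  set a : P × E := (z.1, 0) with ha
  have haz : a + ContinuousLinearMap.inr ℝ P E z.2 = z := by
    ext <;> simp [ha]
  have hc : Continuous fun w : P × E => a + w := by fun_prop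
  have hW' : IsOpen ((fun w : P × E => a + w) ⁻¹' W) := hW.preimage hc
  have hΓ' : ContDiffOn ℝ n (fun w : P × E => Γ (a + w)) ((fun w : P × E => a + w) ⁻¹' W) := by
    refine hΓ.comp (s := (fun w : P × E => a + w) ⁻¹' W) ?_ (fun w hw => hw)
    fun_prop
  have hW'' : IsOpen ((ContinuousLinearMap.inr ℝ P E) ⁻¹' ((fun w : P × E => a + w) ⁻¹' W)) :=
    hW'.preimage (ContinuousLinearMap.inr ℝ P E).continuous
  have hmem : ContinuousLinearMap.inr ℝ P E z.2 ∈ (fun w : P × E => a + w) ⁻¹' W := by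
    show a + ContinuousLinearMap.inr ℝ P E z.2 ∈ W
    rw [haz]; exact hz
  have h1 := (ContinuousLinearMap.inr ℝ P E).iteratedFDerivWithin_comp_right hΓ' hW'.uniqueDiffOn
    hW''.uniqueDiffOn hmem hm
  rw [iteratedFDerivWithin_of_isOpen m hW'' hmem, iteratedFDerivWithin_of_isOpen m hW' hmem,
    iteratedFDeriv_comp_add_left, haz] at h1
  rw [← h1]
  congr 1
  funext u
  show Γ (z.1, u) = Γ (a + ContinuousLinearMap.inr ℝ P E u)
  congr 1
  ext <;> simp [ha]

theorem slice_cont (Γ : P × E → F) (W : Set (P × E)) (hW : IsOpen W) (n : WithTop ℕ∞)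
    (hΓ : ContDiffOn ℝ n Γ W) (m : ℕ) (hm : (m : WithTop ℕ∞) ≤ n) (z : P × E) (hz : z ∈ W) :
    ContinuousAt (fun z : P × E => iteratedFDeriv ℝ m (fun u => Γ (z.1, u)) z.2) z := by
  have h1 : ContinuousAt (fun z : P × E => iteratedFDeriv ℝ m Γ z) z :=
    (hΓ.contDiffAt (hW.mem_nhds hz)).continuousAt_iteratedFDeriv hm
  have h2 : ContinuousAt (fun z : P × E => ContinuousMultilinearMap.compContinuousLinearMapL
      (fun _ : Fin m => ContinuousLinearMap.inr ℝ P E) (iteratedFDeriv ℝ m Γ z)) z :=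
    (ContinuousLinearMap.continuous _).continuousAt.comp h1
  refine h2.congr ?_
  filter_upwards [hW.mem_nhds hz] with y hy
  exact (slice_deriv Γ W hW n hΓ m hm y hy).symm

end lin

section man

variable {E : Type u} [NormedAddCommGroup E] [NormedSpace ℝ E]
    {H : Type w} [TopologicalSpace H] {I : ModelWithCorners ℝ E H} [I.Boundaryless]
    {X : Type v} [TopologicalSpace X] [ChartedSpace H X]
    {P : Type u} [NormedAddCommGroup P] [NormedSpace ℝ P]

/-- the domain of the local expression of a family -/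
def dom (F : P × X → X) (δ : ℝ) (φ ψ : OpenPartialHomeomorph X H) (I : ModelWithCorners ℝ E H) :
    Set (P × E) :=
  {z | (z.1 ∈ ball (0 : P) δ ∧ z.2 ∈ (φ.extend I).target) ∧ F (z.1, (φ.extend I).symm z.2) ∈ ψ.source}

omit [I.Boundaryless] in
theorem inner_smooth (r : ℕ∞) (φ : OpenPartialHomeomorph X H) (hφ : φ ∈ IsManifold.maximalAtlas I ∞ X) :
    ContMDiffOn 𝓘(ℝ, P × E) (𝓘(ℝ, P).prod I) r (fun z : P × E => (z.1, (φ.extend I).symm z.2))
      {z | z.2 ∈ (φ.extend I).target} := by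
  have h1 : ContMDiffOn 𝓘(ℝ, P × E) 𝓘(ℝ, P) r (fun z : P × E => z.1)
      {z | z.2 ∈ (φ.extend I).target} := contDiff_fst.contMDiff.contMDiffOn
  have h2 : ContMDiffOn 𝓘(ℝ, E) I r (φ.extend I).symm (φ.extend I).target := by
    rw [φ.extend_target']
    exact (contMDiffOn_extend_symm hφ).of_le (mod_cast le_top)
  have h3 : ContMDiff 𝓘(ℝ, P × E) 𝓘(ℝ, E) r (fun z : P × E => z.2) := contDiff_snd.contMDiff
  have h4 : ContMDiffOn 𝓘(ℝ, P × E) I r (fun z : P × E => (φ.extend I).symm z.2)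
      {z | z.2 ∈ (φ.extend I).target} := h2.comp h3.contMDiffOn (fun z hz => hz)
  exact h1.prodMk h4

theorem dom_open (F : P × X → X) (δ : ℝ) (r : ℕ∞)
    (hF : ContMDiffOn (𝓘(ℝ, P).prod I) I r F (ball (0 : P) δ ×ˢ (univ : Set X)))
    (φ ψ : OpenPartialHomeomorph X H) (hφ : φ ∈ IsManifold.maximalAtlas I ∞ X) :
    IsOpen (dom F δ φ ψ I) := by
  have h1 := (inner_smooth (P := P) (I := I) r φ hφ).continuousOn
  have ho : IsOpen {z : P × E | z.1 ∈ ball (0 : P) δ ∧ z.2 ∈ (φ.extend I).target} :=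
    (isOpen_ball.preimage continuous_fst).inter ((φ.isOpen_extend_target).preimage continuous_snd)
  have h2 : ContinuousOn (fun z : P × E => F (z.1, (φ.extend I).symm z.2))
      {z : P × E | z.1 ∈ ball (0 : P) δ ∧ z.2 ∈ (φ.extend I).target} := by
    refine hF.continuousOn.comp (h1.mono (fun z hz => hz.2)) ?_
    intro z hz
    exact ⟨hz.1, mem_univ _⟩
  exact h2.isOpen_inter_preimage ho ψ.open_source

theorem dom_smooth (F : P × X → X) (δ : ℝ) (r : ℕ∞)
    (hF : ContMDiffOn (𝓘(ℝ, P).prod I) I r F (ball (0 : P) δ ×ˢ (univ : Set X)))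
    (φ ψ : OpenPartialHomeomorph X H) (hφ : φ ∈ IsManifold.maximalAtlas I ∞ X)
    (hψ : ψ ∈ IsManifold.maximalAtlas I ∞ X) :
    ContDiffOn ℝ r (fun z : P × E => ψ.extend I (F (z.1, (φ.extend I).symm z.2))) (dom F δ φ ψ I) := by
  rw [← contMDiffOn_iff_contDiffOn]
  have h1 := inner_smooth (P := P) (I := I) r φ hφ
  have h2 : ContMDiffOn 𝓘(ℝ, P × E) I r (fun z : P × E => F (z.1, (φ.extend I).symm z.2))
      (dom F δ φ ψ I) := by
    refine hF.comp (h1.mono (fun z hz => hz.1.2)) ?_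
    intro z hz
    exact ⟨hz.1.1, mem_univ _⟩
  have h3 : ContMDiffOn I 𝓘(ℝ, E) r (ψ.extend I) ψ.source :=
    (ψ.contMDiffOn_extend hψ).of_le (mod_cast le_top)
  exact h3.comp h2 (fun z hz => hz.2)

theorem cont_at (F : P × X → X) (δ : ℝ) (r : ℕ∞)
    (hF : ContMDiffOn (𝓘(ℝ, P).prod I) I r F (ball (0 : P) δ ×ˢ (univ : Set X)))
    (φ ψ : OpenPartialHomeomorph X H) (hφ : φ ∈ IsManifold.maximalAtlas I ∞ X)
    (hψ : ψ ∈ IsManifold.maximalAtlas I ∞ X) (hδ : 0 < δ) (x : X) (hx : x ∈ φ.source)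
    (hFx : F (0, x) ∈ ψ.source) (m : ℕ) (hm : (m : WithTop ℕ∞) ≤ r) :
    ContinuousAt (fun z : P × X => iteratedFDeriv ℝ m
      ((ψ.extend I) ∘ (fun y => F (z.1, y)) ∘ (φ.extend I).symm) (φ.extend I z.2)) ((0 : P), x) := by
  have hmem : ((0 : P), φ.extend I x) ∈ dom F δ φ ψ I := by
    refine ⟨⟨mem_ball_self hδ, ?_⟩, ?_⟩
    · exact (φ.extend I).map_source (by rwa [φ.extend_source])
    · show F (0, (φ.extend I).symm (φ.extend I x)) ∈ ψ.source
      rw [φ.extend_left_inv hx]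
      exact hFx
  have h1 := slice_cont (fun z : P × E => ψ.extend I (F (z.1, (φ.extend I).symm z.2))) (dom F δ φ ψ I)
    (dom_open F δ r hF φ ψ hφ) r (dom_smooth F δ r hF φ ψ hφ hψ) m hm _ hmem
  have h2 : ContinuousAt (fun z : P × X => (z.1, φ.extend I z.2)) ((0 : P), x) := by
    refine continuousAt_fst.prodMk ?_
    have h3 : ContinuousAt (φ.extend I) x := φ.continuousAt_extend hx
    exact ContinuousAt.comp (f := fun z : P × X => z.2) (x := ((0 : P), x)) h3 continuousAt_snd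
  exact ContinuousAt.comp (f := fun z : P × X => (z.1, φ.extend I z.2)) (x := ((0 : P), x)) h1 h2

end man

end S3

open S3 in
theorem s3 : PropS3.{u, v, w} := by
  intro E _ _ _ H _ I _ X _ _ _ _ _ P _ _ _ r 𝓕 δ hδ hF U hU h0
  have key : Tendsto 𝓕 (𝓝 (0 : P)) (@nhds _ (strongTop I X r) (𝓕 0)) := by
    unfold strongTop
    rw [TopologicalSpace.tendsto_nhds_generateFrom_iff]
    rintro S ⟨D, k, f, hk, hf, rfl⟩ h0S
    have hfin := D.lf.finite_nonempty_of_compact
    have hev : ∀ i ∈ {i | ((D.φ i).source).Nonempty}, ∀ᶠ p in 𝓝 (0 : P), ∀ x ∈ D.K i,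
        𝓕 p x ∈ (D.ψ i).source ∧ ∀ m : ℕ, m ≤ k →
        ‖iteratedFDeriv ℝ m (((D.ψ i).extend I) ∘ (𝓕 p) ∘ ((D.φ i).extend I).symm) ((D.φ i).extend I x)
          - iteratedFDeriv ℝ m (((D.ψ i).extend I) ∘ f ∘ ((D.φ i).extend I).symm)
            ((D.φ i).extend I x)‖ < D.ε i := by
      intro i _
      refine (D.compact i).eventually_forall_of_forall_eventually (P := fun p x =>
        𝓕 p x ∈ (D.ψ i).source ∧ ∀ m : ℕ, m ≤ k →
        ‖iteratedFDeriv ℝ m (((D.ψ i).extend I) ∘ (𝓕 p) ∘ ((D.φ i).extend I).symm) ((D.φ i).extend I x)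
          - iteratedFDeriv ℝ m (((D.ψ i).extend I) ∘ f ∘ ((D.φ i).extend I).symm)
            ((D.φ i).extend I x)‖ < D.ε i) ?_
      intro x hx
      have hxs : x ∈ (D.φ i).source := D.sub i hx
      have h0i := h0S i x hx
      refine Filter.Eventually.and ?_ ?_
      · have hc : ContinuousAt (fun q : P × X => 𝓕 q.1 q.2) ((0 : P), x) :=
          hF.continuousOn.continuousAt ((isOpen_ball.prod isOpen_univ).mem_nhds
            ⟨mem_ball_self hδ, mem_univ _⟩)
        exact hc.eventually ((D.ψ i).open_source.mem_nhds h0i.1)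
      · have hall : ∀ m ∈ Finset.range (k + 1), ∀ᶠ z : P × X in 𝓝 ((0 : P), x),
            ‖iteratedFDeriv ℝ m (((D.ψ i).extend I) ∘ (𝓕 z.1) ∘ ((D.φ i).extend I).symm)
              ((D.φ i).extend I z.2) -
              iteratedFDeriv ℝ m (((D.ψ i).extend I) ∘ f ∘ ((D.φ i).extend I).symm)
              ((D.φ i).extend I z.2)‖ < D.ε i := by
          intro m hm
          have hmk : m ≤ k := by
            rw [Finset.mem_range] at hm
            omega
          have hmr : (m : WithTop ℕ∞) ≤ r := le_trans (mod_cast hmk) hk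
          have c1 := cont_at (I := I) (fun q : P × X => 𝓕 q.1 q.2) δ r hF (D.φ i) (D.ψ i) (D.φ_mem i)
            (D.ψ_mem i) hδ x hxs h0i.1 m hmr
          have hfc : ContMDiffOn (𝓘(ℝ, P).prod I) I r (fun q : P × X => f q.2)
              (ball (0 : P) δ ×ˢ (univ : Set X)) :=
            (f.contMDiff.comp contMDiff_snd).contMDiffOn
          have c2 := cont_at (I := I) (fun q : P × X => f q.2) δ r hfc (D.φ i) (D.ψ i) (D.φ_mem i)
            (D.ψ_mem i) hδ x hxs (hf i x hx) m hmr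
          have c3 := (c1.sub c2).norm
          exact c3.eventually (gt_mem_nhds (h0i.2 m hmk))
        have hall' := (Filter.eventually_all_finset (Finset.range (k + 1))).mpr hall
        filter_upwards [hall'] with z hz m hm
        exact hz m (Finset.mem_range.mpr (by omega))
    have hall := (Filter.eventually_all_finite hfin).mpr hev
    filter_upwards [hall] with p hp i x hx
    exact hp i ⟨x, D.sub i hx⟩ x hx
  have hU' : U ∈ @nhds _ (strongTop I X r) (𝓕 0) := by
    let _ := strongTop I X r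
    exact hU.mem_nhds h0
  exact key hU'

end Pool.Agent.W733.CL
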