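import Pool.Agent.H789R2.AN.Def

/-!
# The closing lemma for skew products: definitions
-/

set_option autoImplicit false

open scoped Manifold ContDiff Topology
open Set Filter

namespace Pool.Agent.W733.CL

section

variable {E : Type*} [NormedAddCommGroup E] [NormedSpace ℝ E] {H : Type*} [TopologicalSpace H]
  (I : ModelWithCorners ℝ E H) (X : Type*) [TopologicalSpace X] [ChartedSpace H X]

/-- The data of a basic strong neighbourhood (Hirsch, Differential Topology, 2.1): charts `φ i` of
the smooth structure with locally finite domains, charts `ψ i`, compact sets `K i` in the domain of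
`φ i`, positive numbers `ε i`. -/
structure StrongData where
  ι : Type
  φ : ι → OpenPartialHomeomorph X H
  ψ : ι → OpenPartialHomeomorph X H
  K : ι → Set X
  ε : ι → ℝ
  φ_mem : ∀ i, φ i ∈ IsManifold.maximalAtlas I ∞ X
  ψ_mem : ∀ i, ψ i ∈ IsManifold.maximalAtlas I ∞ X
  lf : LocallyFinite fun i => (φ i).source
  compact : ∀ i, IsCompact (K i)
  sub : ∀ i, K i ⊆ (φ i).source
  pos : ∀ i, 0 < ε i

variable {I X}

/-- The basic strong neighbourhood of `f` of order `k`: the diffeomorphisms whose derivatives of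
order at most `k`, in the charts, are `ε i`-close to those of `f` on `K i`. -/
def strongNbhd {r : WithTop ℕ∞} (D : StrongData I X) (k : ℕ) (f : Diffeomorph I I X X r) :
    Set (Diffeomorph I I X X r) :=
  {g | ∀ i, ∀ x ∈ D.K i, g x ∈ (D.ψ i).source ∧ ∀ m : ℕ, m ≤ k →
    ‖iteratedFDeriv ℝ m (((D.ψ i).extend I) ∘ g ∘ ((D.φ i).extend I).symm) ((D.φ i).extend I x)
      - iteratedFDeriv ℝ m (((D.ψ i).extend I) ∘ f ∘ ((D.φ i).extend I).symm)
        ((D.φ i).extend I x)‖ < D.ε i}

variable (I X)

/-- The strong (Whitney) `C^r` topology on `Diff^r(X)`. If `X` is compact it is the usual `C^r`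
topology. -/
@[instance_reducible]
def strongTop (r : WithTop ℕ∞) : TopologicalSpace (Diffeomorph I I X X r) :=
  TopologicalSpace.generateFrom {S | ∃ (D : StrongData I X) (k : ℕ) (f : Diffeomorph I I X X r),
    (k : WithTop ℕ∞) ≤ r ∧ (∀ i, ∀ x ∈ D.K i, f x ∈ (D.ψ i).source) ∧ S = strongNbhd D k f}

end

/-- `z` is periodic for `f`. -/
def IsPer {X : Type*} (f : X → X) (z : X) : Prop := ∃ n : ℕ, 1 ≤ n ∧ f^[n] z = z

/-- the sum of `τ` along `n` steps of the orbit of `x` -/
def vsum {X V : Type*} [AddCommMonoid V] (f : X → X) (τ : X → V) (n : ℕ) (x : X) : V :=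
  ∑ i ∈ Finset.range n, τ (f^[i] x)

end Pool.Agent.W733.CL
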