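import Pool.Agent.W733.CL.Stmts

/-!
# The closing lemma for skew products: assembly
-/

set_option autoImplicit false
set_option linter.unusedSectionVars false

open scoped Manifold ContDiff Topology
open Set Filter Metric

namespace Pool.Agent.W733.CL

open Pool.Agent.H721R2 Pool.Agent.H789R2.AN

universe u v

section

variable {E₁ : Type u} [NormedAddCommGroup E₁] [NormedSpace ℝ E₁] [FiniteDimensional ℝ E₁]
  {E₂ : Type u} [NormedAddCommGroup E₂] [NormedSpace ℝ E₂] [FiniteDimensional ℝ E₂]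
  {M : Type v} [TopologicalSpace M] [T2Space M] [CompactSpace M] [ConnectedSpace M]
  [ChartedSpace E₁ M] [IsManifold 𝓘(ℝ, E₁) ∞ M]
  {N : Type v} [TopologicalSpace N] [T2Space N] [CompactSpace N]
  [ChartedSpace E₂ N] [IsManifold 𝓘(ℝ, E₂) ∞ N]

/-- `ℝᵏ` -/
abbrev Rk (k : ℕ) := EuclideanSpace ℝ (Fin k)

/-- A `C^r` action of `ℝᵏ` on `N`. -/
structure IsAction (k : ℕ) (r : ℕ∞) (Ψ : Rk k × N → N) : Prop where
  smooth : ContMDiff (𝓘(ℝ, Rk k).prod 𝓘(ℝ, E₂)) 𝓘(ℝ, E₂) r Ψ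
  zero : ∀ y, Ψ (0, y) = y
  add : ∀ s t y, Ψ (s + t, y) = Ψ (s, Ψ (t, y))

variable {k : ℕ} {r : ℕ∞} {Ψ : Rk k × N → N}

/-- the skew product with a constant added to `τ` -/
noncomputable def skew (f : Diffeomorph 𝓘(ℝ, E₁) 𝓘(ℝ, E₁) M M r) (hΨ : IsAction (E₂ := E₂) k r Ψ)
    (τ : M → Rk k) (hτ : ContMDiff 𝓘(ℝ, E₁) 𝓘(ℝ, Rk k) r τ) (c : Rk k) :
    Diffeomorph (𝓘(ℝ, E₁).prod 𝓘(ℝ, E₂)) (𝓘(ℝ, E₁).prod 𝓘(ℝ, E₂)) (M × N) (M × N) r where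
  toFun z := (f z.1, Ψ (τ z.1 + c, z.2))
  invFun z := (f.symm z.1, Ψ (-(τ (f.symm z.1) + c), z.2))
  left_inv z := by
    simp only [f.symm_apply_apply]
    rw [← hΨ.add, neg_add_cancel, hΨ.zero]
  right_inv z := by
    simp only [f.apply_symm_apply]
    rw [← hΨ.add, add_neg_cancel, hΨ.zero]
  contMDiff_toFun := by
    refine (f.contMDiff_toFun.comp contMDiff_fst).prodMk ?_
    refine hΨ.smooth.comp (ContMDiff.prodMk ?_ contMDiff_snd)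
    exact (hτ.comp contMDiff_fst).add contMDiff_const
  contMDiff_invFun := by
    refine (f.symm.contMDiff_toFun.comp contMDiff_fst).prodMk ?_
    refine hΨ.smooth.comp (ContMDiff.prodMk ?_ contMDiff_snd)
    exact ((hτ.comp (f.symm.contMDiff_toFun.comp contMDiff_fst)).add contMDiff_const).neg

theorem skew_iter (f : Diffeomorph 𝓘(ℝ, E₁) 𝓘(ℝ, E₁) M M r) (hΨ : IsAction (E₂ := E₂) k r Ψ)
    (τ : M → Rk k) (hτ : ContMDiff 𝓘(ℝ, E₁) 𝓘(ℝ, Rk k) r τ) (c : Rk k) (n : ℕ) (x : M) (y : N) :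
    (skew f hΨ τ hτ c)^[n] (x, y) = (f^[n] x, Ψ (vsum f τ n x + n • c, y)) := by
  induction n with
  | zero => simp [vsum, hΨ.zero]
  | succ n ih =>
    rw [Function.iterate_succ_apply', ih, Function.iterate_succ_apply']
    show (f (f^[n] x), Ψ (τ (f^[n] x) + c, Ψ (vsum f τ n x + n • c, y))) = _
    rw [← hΨ.add]
    congr 3
    unfold vsum
    rw [Finset.sum_range_succ, succ_nsmul]
    abel

/-- conjugation by a diffeomorphism of the base -/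
noncomputable def fam (f : Diffeomorph 𝓘(ℝ, E₁) 𝓘(ℝ, E₁) M M r) (hΨ : IsAction (E₂ := E₂) k r Ψ)
    (τ : M → Rk k) (hτ : ContMDiff 𝓘(ℝ, E₁) 𝓘(ℝ, Rk k) r τ)
    (T : E₁ → Diffeomorph 𝓘(ℝ, E₁) 𝓘(ℝ, E₁) M M ∞) (p : E₁ × Rk k) :
    Diffeomorph (𝓘(ℝ, E₁).prod 𝓘(ℝ, E₂)) (𝓘(ℝ, E₁).prod 𝓘(ℝ, E₂)) (M × N) (M × N) r where
  toFun z := (T p.1 (f ((T p.1).symm z.1)), Ψ (τ ((T p.1).symm z.1) + p.2, z.2))
  invFun z := (T p.1 (f.symm ((T p.1).symm z.1)),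
    Ψ (-(τ (f.symm ((T p.1).symm z.1)) + p.2), z.2))
  left_inv z := by
    simp only [Diffeomorph.symm_apply_apply]
    rw [Diffeomorph.apply_symm_apply, ← hΨ.add, neg_add_cancel, hΨ.zero]
  right_inv z := by
    simp only [Diffeomorph.symm_apply_apply, Diffeomorph.apply_symm_apply]
    rw [← hΨ.add, add_neg_cancel, hΨ.zero]
  contMDiff_toFun := by
    have h1 : ContMDiff (𝓘(ℝ, E₁).prod 𝓘(ℝ, E₂)) 𝓘(ℝ, E₁) r
        (fun z : M × N => (T p.1).symm z.1) :=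
      ((T p.1).symm.contMDiff_toFun.of_le (by exact_mod_cast le_top)).comp contMDiff_fst
    refine ContMDiff.prodMk ?_ ?_
    · exact ((T p.1).contMDiff_toFun.of_le (by exact_mod_cast le_top)).comp
        (f.contMDiff_toFun.comp h1)
    · exact hΨ.smooth.comp (((hτ.comp h1).add contMDiff_const).prodMk contMDiff_snd)
  contMDiff_invFun := by
    have h1 : ContMDiff (𝓘(ℝ, E₁).prod 𝓘(ℝ, E₂)) 𝓘(ℝ, E₁) r
        (fun z : M × N => (T p.1).symm z.1) :=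
      ((T p.1).symm.contMDiff_toFun.of_le (by exact_mod_cast le_top)).comp contMDiff_fst
    have h2 := f.symm.contMDiff_toFun.comp h1
    refine ContMDiff.prodMk ?_ ?_
    · exact ((T p.1).contMDiff_toFun.of_le (by exact_mod_cast le_top)).comp h2
    · exact hΨ.smooth.comp (((hτ.comp h2).add contMDiff_const).neg.prodMk contMDiff_snd)

theorem fam_iter (f : Diffeomorph 𝓘(ℝ, E₁) 𝓘(ℝ, E₁) M M r) (hΨ : IsAction (E₂ := E₂) k r Ψ)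
    (τ : M → Rk k) (hτ : ContMDiff 𝓘(ℝ, E₁) 𝓘(ℝ, Rk k) r τ)
    (T : E₁ → Diffeomorph 𝓘(ℝ, E₁) 𝓘(ℝ, E₁) M M ∞) (p : E₁ × Rk k) (n : ℕ) (x : M) (y : N) :
    (fam f hΨ τ hτ T p)^[n] (T p.1 x, y) =
      (T p.1 ((skew f hΨ τ hτ p.2)^[n] (x, y)).1, ((skew f hΨ τ hτ p.2)^[n] (x, y)).2) := by
  induction n with
  | zero => rfl
  | succ n ih =>
    rw [Function.iterate_succ_apply', ih, Function.iterate_succ_apply']
    show (T p.1 (f ((T p.1).symm (T p.1 _))), Ψ (τ ((T p.1).symm (T p.1 _)) + p.2, _)) = _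
    rw [Diffeomorph.symm_apply_apply]
    rfl

/-- The closing lemma for skew products with values in an `ℝᵏ`-action. -/
theorem main (h1 : PropS1.{u, v}) (h2 : PropS2.{u, v}) (h3 : PropS3.{u, v, u})
    (_hr : 1 ≤ r) (f : Diffeomorph 𝓘(ℝ, E₁) 𝓘(ℝ, E₁) M M r)
    (f₁ : Diffeomorph 𝓘(ℝ, E₁) 𝓘(ℝ, E₁) M M 1) (hf₁ : ∀ x, f₁ x = f x)
    (Es Eu : ∀ x : M, Submodule ℝ (TangentSpace 𝓘(ℝ, E₁) x)) (hA : IsAnosov f₁ Es Eu)
    (htr : TopTransitive f) (hΨ : IsAction (E₂ := E₂) k r Ψ)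
    (τ : M → Rk k) (hτ : ContMDiff 𝓘(ℝ, E₁) 𝓘(ℝ, Rk k) r τ)
    (hd : ∀ ε : ℝ, 0 < ε → ∃ (n : ℕ) (p : M), 1 ≤ n ∧ f^[n] p = p ∧ ‖vsum f τ n p‖ ≤ ε * n)
    (F : Diffeomorph (𝓘(ℝ, E₁).prod 𝓘(ℝ, E₂)) (𝓘(ℝ, E₁).prod 𝓘(ℝ, E₂)) (M × N) (M × N) r)
    (hF : ∀ x y, F (x, y) = (f x, Ψ (τ x, y))) (z : M × N)
    (U : Set (Diffeomorph (𝓘(ℝ, E₁).prod 𝓘(ℝ, E₂)) (𝓘(ℝ, E₁).prod 𝓘(ℝ, E₂)) (M × N) (M × N) r))
    (hU : IsOpen[strongTop (𝓘(ℝ, E₁).prod 𝓘(ℝ, E₂)) (M × N) r] U) (hFU : F ∈ U) :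
    ∃ G ∈ U, IsPer G z := by
  obtain ⟨x, y⟩ := z
  obtain ⟨δ, T, hδ, hT0, hT1, hT2, hT3⟩ := h2 E₁ M x
  have hff : (f₁ : M → M) = f := funext hf₁
  -- the family is jointly smooth
  have hjoint : ContMDiffOn (𝓘(ℝ, E₁ × Rk k).prod (𝓘(ℝ, E₁).prod 𝓘(ℝ, E₂)))
      (𝓘(ℝ, E₁).prod 𝓘(ℝ, E₂)) r
      (fun q : (E₁ × Rk k) × (M × N) => fam f hΨ τ hτ T q.1 q.2)
      (ball (0 : E₁ × Rk k) δ ×ˢ (univ : Set (M × N))) := by
    have hr' : (r : WithTop ℕ∞) ≤ ∞ := by exact_mod_cast le_top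
    set J := 𝓘(ℝ, E₁ × Rk k).prod (𝓘(ℝ, E₁).prod 𝓘(ℝ, E₂)) with hJ
    set S : Set ((E₁ × Rk k) × (M × N)) := ball (0 : E₁ × Rk k) δ ×ˢ univ with hS
    have a1 : ContMDiff J 𝓘(ℝ, E₁) r (fun q : (E₁ × Rk k) × (M × N) => q.1.1) :=
      (contDiff_fst (𝕜 := ℝ) (E := E₁) (F := Rk k)).contMDiff.comp contMDiff_fst
    have a2 : ContMDiff J 𝓘(ℝ, Rk k) r (fun q : (E₁ × Rk k) × (M × N) => q.1.2) :=
      (contDiff_snd (𝕜 := ℝ) (E := E₁) (F := Rk k)).contMDiff.comp contMDiff_fst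
    have a3 : ContMDiff J 𝓘(ℝ, E₁) r (fun q : (E₁ × Rk k) × (M × N) => q.2.1) :=
      contMDiff_fst.comp contMDiff_snd
    have a4 : ContMDiff J 𝓘(ℝ, E₂) r (fun q : (E₁ × Rk k) × (M × N) => q.2.2) :=
      contMDiff_snd.comp contMDiff_snd
    have hball : ∀ q ∈ S, q.1.1 ∈ ball (0 : E₁) δ := by
      intro q hq
      have h5 : q.1 ∈ ball (0 : E₁ × Rk k) δ := hq.1
      rw [mem_ball_zero_iff] at h5 ⊢
      exact lt_of_le_of_lt (norm_fst_le q.1) h5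
    have b1 : ContMDiffOn J 𝓘(ℝ, E₁) r
        (fun q : (E₁ × Rk k) × (M × N) => (T q.1.1).symm q.2.1) S :=
      (hT2.of_le hr').comp (a1.prodMk a3).contMDiffOn (fun q hq => ⟨hball q hq, trivial⟩)
    have b2 : ContMDiffOn J 𝓘(ℝ, E₁) r
        (fun q : (E₁ × Rk k) × (M × N) => f ((T q.1.1).symm q.2.1)) S :=
      f.contMDiff_toFun.comp_contMDiffOn b1
    have b3 : ContMDiffOn J 𝓘(ℝ, E₁) r
        (fun q : (E₁ × Rk k) × (M × N) => T q.1.1 (f ((T q.1.1).symm q.2.1))) S :=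
      (hT1.of_le hr').comp (a1.contMDiffOn.prodMk b2) (fun q hq => ⟨hball q hq, trivial⟩)
    have b4 : ContMDiffOn J 𝓘(ℝ, Rk k) r
        (fun q : (E₁ × Rk k) × (M × N) => τ ((T q.1.1).symm q.2.1) + q.1.2) S :=
      (hτ.comp_contMDiffOn b1).add a2.contMDiffOn
    exact b3.prodMk (hΨ.smooth.comp_contMDiffOn (b4.prodMk a4.contMDiffOn))
  have hT0' : ∀ y, (T 0).symm y = y := fun y => by
    have h5 := (T 0).symm_apply_apply y
    rwa [hT0] at h5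
  have hF0 : fam f hΨ τ hτ T 0 = F := by
    have h5 : ∀ z, fam f hΨ τ hτ T 0 z = F z := by
      rintro ⟨a, b⟩
      rw [hF]
      show (T 0 (f ((T 0).symm a)), Ψ (τ ((T 0).symm a) + 0, b)) = _
      rw [hT0', hT0, add_zero]
    exact DFunLike.ext _ _ h5
  have hev := h3 (E₁ × E₂) (ModelProd E₁ E₂) (𝓘(ℝ, E₁).prod 𝓘(ℝ, E₂)) (M × N) (E₁ × Rk k) r
    (fam f hΨ τ hτ T) δ hδ hjoint U hU (by rw [hF0]; exact hFU)
  rw [Metric.eventually_nhds_iff] at hev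
  obtain ⟨ε, hε, hev⟩ := hev
  -- periodic points
  obtain ⟨x', hx', n, hn, hper, hsum⟩ := h1 E₁ M f₁ Es Eu hA (by rw [hff]; exact htr) k τ
    hτ.continuous (by rw [hff]; exact hd) x _ (hT3 ε hε) (ε / 2) (half_pos hε)
  obtain ⟨v, hv, hvx⟩ := hx'
  rw [hff] at hper hsum
  have hn0 : (0 : ℝ) < n := by exact_mod_cast hn
  set c : Rk k := -((n : ℝ)⁻¹ • vsum f τ n x') with hc
  have hcn : ‖c‖ < ε := by
    rw [hc, norm_neg, norm_smul, norm_inv, Real.norm_natCast]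
    calc (n : ℝ)⁻¹ * ‖vsum f τ n x'‖ ≤ (n : ℝ)⁻¹ * (ε / 2 * n) :=
          mul_le_mul_of_nonneg_left hsum (by positivity)
      _ = ε / 2 := by field_simp
      _ < ε := half_lt_self hε
  refine ⟨fam f hΨ τ hτ T (v, c), hev ?_, n, hn, ?_⟩
  · rw [dist_zero_right, Prod.norm_def]
    exact max_lt hv hcn
  · have h5 := fam_iter f hΨ τ hτ T (v, c) n x' y
    simp only [hvx] at h5
    rw [h5, skew_iter, hper]
    simp only [hvx]
    congr 1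
    have h6 : vsum f τ n x' + n • c = 0 := by
      rw [hc, smul_neg, ← Nat.cast_smul_eq_nsmul ℝ n, smul_smul, mul_inv_cancel₀ hn0.ne', one_smul,
        add_neg_cancel]
    rw [h6, hΨ.zero]

end

end Pool.Agent.W733.CL
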