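import Pool.Agent.W733.CL.Defs

/-!
# Statements of project CL (closing lemma for skew products with values in a flow)
-/

set_option autoImplicit false

open scoped Manifold ContDiff Topology
open Set Filter Metric

namespace Pool.Agent.W733.CL

open Pool.Agent.H721R2 Pool.Agent.H789R2.AN

universe u v w

/-- CL1: periodic points with small drift are dense -/
def PropS1 : Prop :=
  ∀ (E : Type u) [NormedAddCommGroup E] [NormedSpace ℝ E] [FiniteDimensional ℝ E]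
    (M : Type v) [TopologicalSpace M] [T2Space M] [CompactSpace M] [ConnectedSpace M]
    [ChartedSpace E M] [IsManifold 𝓘(ℝ, E) ∞ M] (f : Diffeomorph 𝓘(ℝ, E) 𝓘(ℝ, E) M M 1)
    (Es Eu : ∀ x : M, Submodule ℝ (TangentSpace 𝓘(ℝ, E) x)), IsAnosov f Es Eu →
    TopTransitive f → ∀ (k : ℕ) (τ : M → EuclideanSpace ℝ (Fin k)), Continuous τ →
    (∀ ε : ℝ, 0 < ε → ∃ (n : ℕ) (p : M), 1 ≤ n ∧ f^[n] p = p ∧ ‖vsum f τ n p‖ ≤ ε * n) →
    ∀ (x : M) (U : Set M), U ∈ 𝓝 x → ∀ ε : ℝ, 0 < ε →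
      ∃ x' ∈ U, ∃ n : ℕ, 1 ≤ n ∧ f^[n] x' = x' ∧ ‖vsum f τ n x'‖ ≤ ε * n

/-- CL2: a smooth family of diffeomorphisms moving points near `x` to `x` -/
def PropS2 : Prop :=
  ∀ (E : Type u) [NormedAddCommGroup E] [NormedSpace ℝ E] [FiniteDimensional ℝ E]
    (M : Type v) [TopologicalSpace M] [T2Space M] [ChartedSpace E M] [IsManifold 𝓘(ℝ, E) ∞ M]
    (x : M),
    ∃ (δ : ℝ) (T : E → Diffeomorph 𝓘(ℝ, E) 𝓘(ℝ, E) M M ∞), 0 < δ ∧ (∀ y, T 0 y = y) ∧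
      ContMDiffOn (𝓘(ℝ, E).prod 𝓘(ℝ, E)) 𝓘(ℝ, E) ∞ (fun q : E × M => T q.1 q.2)
        (ball (0 : E) δ ×ˢ (univ : Set M)) ∧
      ContMDiffOn (𝓘(ℝ, E).prod 𝓘(ℝ, E)) 𝓘(ℝ, E) ∞ (fun q : E × M => (T q.1).symm q.2)
        (ball (0 : E) δ ×ˢ (univ : Set M)) ∧
      ∀ η : ℝ, 0 < η → ∀ᶠ x' in 𝓝 x, ∃ v : E, ‖v‖ < η ∧ T v x' = x

/-- CL3: a family of diffeomorphisms which is jointly `C^r` is continuous for the `C^r` topology -/
def PropS3 : Prop :=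
  ∀ (E : Type u) [NormedAddCommGroup E] [NormedSpace ℝ E] [FiniteDimensional ℝ E]
    (H : Type w) [TopologicalSpace H] (I : ModelWithCorners ℝ E H) [I.Boundaryless]
    (X : Type v) [TopologicalSpace X] [T2Space X] [CompactSpace X] [ChartedSpace H X]
    [IsManifold I ∞ X] (P : Type u) [NormedAddCommGroup P] [NormedSpace ℝ P]
    [FiniteDimensional ℝ P] (r : ℕ∞) (𝓕 : P → Diffeomorph I I X X r) (δ : ℝ), 0 < δ →
    ContMDiffOn (𝓘(ℝ, P).prod I) I r (fun q : P × X => 𝓕 q.1 q.2)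
      (ball (0 : P) δ ×ˢ (univ : Set X)) →
    ∀ U : Set (Diffeomorph I I X X r), IsOpen[strongTop I X r] U → 𝓕 0 ∈ U →
      ∀ᶠ p in 𝓝 (0 : P), 𝓕 p ∈ U

end Pool.Agent.W733.CL
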