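import Pool.Agent.W733.CL.Stmts

/-!
# Statements of project CL, second part (compact group extensions)
-/

set_option autoImplicit false

open scoped Manifold ContDiff Topology
open Set Filter Metric

namespace Pool.Agent.W733.CL

open Pool.Agent.H721R2 Pool.Agent.H789R2.AN

universe u v w

/-- CL3b: as PropS3, for a family of maps `𝓜 p`: the diffeomorphisms among them are `C^r` close to
`F = 𝓜 0`. -/
def PropS3b : Prop :=
  ∀ (E : Type u) [NormedAddCommGroup E] [NormedSpace ℝ E] [FiniteDimensional ℝ E]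
    (H : Type w) [TopologicalSpace H] (I : ModelWithCorners ℝ E H) [I.Boundaryless]
    (X : Type v) [TopologicalSpace X] [T2Space X] [CompactSpace X] [ChartedSpace H X]
    [IsManifold I ∞ X] (P : Type u) [NormedAddCommGroup P] [NormedSpace ℝ P]
    [FiniteDimensional ℝ P] (r : ℕ∞) (𝓜 : P × X → X) (F : Diffeomorph I I X X r) (δ : ℝ), 0 < δ →
    (∀ x, 𝓜 (0, x) = F x) →
    ContMDiffOn (𝓘(ℝ, P).prod I) I r 𝓜 (ball (0 : P) δ ×ˢ (univ : Set X)) →
    ∀ U : Set (Diffeomorph I I X X r), IsOpen[strongTop I X r] U → F ∈ U →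
      ∀ᶠ p in 𝓝 (0 : P), ∀ G : Diffeomorph I I X X r, (∀ x, G x = 𝓜 (p, x)) → G ∈ U

/-- CL1b: periodic points are dense in the nonwandering set of an Anosov diffeomorphism -/
def PropS1b : Prop :=
  ∀ (E : Type u) [NormedAddCommGroup E] [NormedSpace ℝ E] [FiniteDimensional ℝ E]
    (M : Type v) [TopologicalSpace M] [T2Space M] [CompactSpace M] [ConnectedSpace M]
    [ChartedSpace E M] [IsManifold 𝓘(ℝ, E) ∞ M] (f : Diffeomorph 𝓘(ℝ, E) 𝓘(ℝ, E) M M 1)
    (Es Eu : ∀ x : M, Submodule ℝ (TangentSpace 𝓘(ℝ, E) x)), IsAnosov f Es Eu →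
    ∀ x : M, (∀ U ∈ 𝓝 x, ∃ n : ℕ, 1 ≤ n ∧ (f^[n] '' U ∩ U).Nonempty) →
      ∀ U ∈ 𝓝 x, ∃ x' ∈ U, ∃ n : ℕ, 1 ≤ n ∧ f^[n] x' = x'

/-- the algebra of complex `d × d` matrices, as operators of `ℂᵈ` -/
abbrev Mat (d : ℕ) := EuclideanSpace ℂ (Fin d) →L[ℂ] EuclideanSpace ℂ (Fin d)

/-- `G` is a compact matrix Lie group: a closed subgroup of the unitary group `U(d)` such that every
`g ∈ G` near `1` is the exponential of a small matrix `Y`, commuting with all matrices that commute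
with `g`, whose one-parameter group lies in `G`. (By the theorem of von Neumann and Cartan this holds
for all closed subgroups of `U(d)`.) -/
structure IsMatLie {d : ℕ} (G : Set (Mat d)) : Prop where
  unit : G ⊆ unitary (Mat d)
  closed : IsClosed G
  one : (1 : Mat d) ∈ G
  mul : ∀ g ∈ G, ∀ h ∈ G, g * h ∈ G
  inv : ∀ g ∈ G, star g ∈ G
  log : ∃ C ε : ℝ, 0 < ε ∧ ∀ g ∈ G, ‖g - 1‖ < ε → ∃ Y : Mat d, ‖Y‖ ≤ C * ‖g - 1‖ ∧
    NormedSpace.exp Y = g ∧ (∀ t : ℝ, NormedSpace.exp (t • Y) ∈ G) ∧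
    ∀ h : Mat d, h * g = g * h → h * Y = Y * h

/-- CL5: elements of finite order are dense, along one-parameter groups -/
def PropS5 : Prop :=
  ∀ (d : ℕ) (G : Set (Mat d)), IsMatLie G → ∀ P ∈ G, ∀ ε : ℝ, 0 < ε →
    ∃ X : Mat d, ‖X‖ < ε ∧ (∀ t : ℝ, NormedSpace.exp (t • X) ∈ G) ∧
      ∃ m : ℕ, 1 ≤ m ∧ (P * NormedSpace.exp X) ^ m = 1

/-- CL6: the unitary group is a compact matrix Lie group -/
def PropS6 : Prop := ∀ d : ℕ, IsMatLie (unitary (Mat d) : Set (Mat d))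

/-- CL7: smoothness of the exponential and of bump functions -/
def PropS7 : Prop :=
  (∀ d : ℕ, ContDiff ℝ ∞ (fun X : Mat d => NormedSpace.exp X)) ∧
  ∀ (E : Type u) [NormedAddCommGroup E] [NormedSpace ℝ E] [FiniteDimensional ℝ E]
    (M : Type v) [TopologicalSpace M] [T2Space M] [ChartedSpace E M] [IsManifold 𝓘(ℝ, E) ∞ M]
    (x : M) (S : Set M), S.Finite → x ∉ S →
    ∃ ρ : M → ℝ, ContMDiff 𝓘(ℝ, E) 𝓘(ℝ, ℝ) ∞ ρ ∧ ρ x = 1 ∧ ∀ y ∈ S, ρ y = 0

end Pool.Agent.W733.CL
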